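import Mathlib
import Pool.Agent.Helper872.BoxSteiner

open MeasureTheory Metric Set Filter Topology
open scoped ENNReal

namespace Pool.Agent.Results.MP_0139c6_co.EhrhartBoxBound

/-- the number of integer points of `K` -/
noncomputable def latticeCount {d : ℕ} (K : Set (EuclideanSpace ℝ (Fin d))) : ℕ :=
  {z : Fin d → ℤ | WithLp.toLp 2 (fun i => (z i : ℝ)) ∈ K}.ncard

/-- the volume of the unit ball of dimension `j` -/
noncomputable def kappa (j : ℕ) : ℝ :=
  volume.real (closedBall (0 : EuclideanSpace ℝ (Fin j)) 1)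

/-- `V 0, ..., V d` are the intrinsic volumes of `K`: the Steiner formula. For compact `K` the set
`cthickening ρ K` is the Minkowski sum of `K` and the ball of radius `ρ`. -/
def IsIntrinsicVolumes {d : ℕ} (K : Set (EuclideanSpace ℝ (Fin d))) (V : ℕ → ℝ) : Prop :=
  ∀ ρ : ℝ, 0 ≤ ρ → volume.real (cthickening ρ K) =
    ∑ i ∈ Finset.range (d + 1), kappa (d - i) * ρ ^ (d - i) * V i

/-- the smallest lattice box containing `K` -/
def latticeBox {d : ℕ} (K : Set (EuclideanSpace ℝ (Fin d))) : Set (EuclideanSpace ℝ (Fin d)) :=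
  {x | ∀ i, (⌊sInf ((fun y => y i) '' K)⌋ : ℝ) ≤ x i ∧ x i ≤ (⌈sSup ((fun y => y i) '' K)⌉ : ℝ)}

open Polynomial in
theorem coeff01 : ∀ (n : ℕ) (m : Fin n → ℝ),
    (∏ i, (X + C (m i)) : ℝ[X]).coeff 0 = ∏ i, m i ∧
    (∏ i, (X + C (m i)) : ℝ[X]).coeff 1 = Helper872.DD m := by
  intro n
  induction n with
  | zero => intro m; simp [Helper872.DD, coeff_one]
  | succ n ih =>
    intro m
    obtain ⟨h0, h1⟩ := ih (fun i => m i.succ)
    rw [Helper872.DD_succ, Fin.prod_univ_succ, Fin.prod_univ_succ, add_mul, coeff_add, coeff_add,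
      coeff_C_mul, coeff_C_mul, h0, h1]
    constructor
    · simp
    · have e : (X * ∏ i : Fin n, (X + C (m i.succ)) : ℝ[X]).coeff 1 =
          (∏ i : Fin n, (X + C (m i.succ)) : ℝ[X]).coeff 0 := coeff_X_mul _ 0
      rw [e, h0]

open Polynomial in
theorem low_sum (e : ℕ) (m : Fin (e + 1) → ℝ) :
    ∑ i ∈ Finset.range e, (∏ i, (X + C (m i)) : ℝ[X]).coeff (e + 1 - i) = Helper872.LL m := by
  set P : ℝ[X] := ∏ i, (X + C (m i)) with hP
  have hdeg : P.natDegree < e + 2 := by
    rw [hP, natDegree_prod_of_monic _ _ (fun i _ => monic_X_add_C _)]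
    simp only [natDegree_X_add_C, Finset.sum_const, Finset.card_univ, Fintype.card_fin,
      smul_eq_mul, mul_one]
    omega
  have h1 : P.eval 1 = ∑ k ∈ Finset.range (e + 2), P.coeff k := by
    rw [eval_eq_sum_range' hdeg]; simp
  have h2 : P.eval 1 = ∏ i, (1 + m i) := by
    rw [hP, eval_prod]; simp
  obtain ⟨c0, c1⟩ := coeff01 (e + 1) m
  have h3 : ∑ i ∈ Finset.range e, P.coeff (e + 1 - i) = ∑ j ∈ Finset.range e, P.coeff (j + 2) := by
    rw [← Finset.sum_range_reflect]
    apply Finset.sum_congr rfl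
    intro j hj
    rw [Finset.mem_range] at hj
    congr 1
    omega
  rw [← hP] at c0 c1
  rw [h3]
  rw [Finset.sum_range_succ', Finset.sum_range_succ'] at h1
  unfold Helper872.LL
  rw [← h2, h1, ← c0, ← c1]
  ring

theorem kappa_zero : kappa 0 = 1 := by
  unfold kappa
  rw [Measure.real, volume_euclideanSpace_eq_dirac]
  simp

theorem kappa_one : kappa 1 = 2 := by
  unfold kappa
  rw [Measure.real, EuclideanSpace.volume_closedBall]
  have h : Real.Gamma (1 / 2 + 1) = √Real.pi / 2 := by
    rw [Real.Gamma_add_one (by norm_num), Real.Gamma_one_half_eq]; ring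
  have hpi : 0 < √Real.pi := Real.sqrt_pos.2 Real.pi_pos
  simp only [Fintype.card_fin, pow_one, Nat.cast_one, h, ENNReal.ofReal_one, one_mul]
  rw [ENNReal.toReal_ofReal (by positivity)]
  field_simp

open Polynomial in
/-- the intrinsic volumes of a box are the elementary symmetric polynomials of its side lengths -/
theorem box_intrinsic {d : ℕ} {u v : Fin d → ℝ} (huv : ∀ i, u i ≤ v i) :
    IsIntrinsicVolumes {x : EuclideanSpace ℝ (Fin d) | ∀ i, u i ≤ x i ∧ x i ≤ v i}
      (fun i => (∏ i, (X + C (v i - u i)) : ℝ[X]).coeff (d - i)) := by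
  intro ρ hρ
  have hnn : ∀ k, 0 ≤ (∏ i, (X + C (v i - u i)) : ℝ[X]).coeff k := by
    have : ∀ (m : ℕ) (w : Fin m → ℝ), (∀ i, 0 ≤ w i) → ∀ k,
        0 ≤ ((∏ i, (X + C (w i)) : ℝ[X])).coeff k := by
      intro m
      induction m with
      | zero =>
        intro w _ k
        simp only [Finset.univ_eq_empty, Finset.prod_empty, coeff_one]
        split_ifs <;> norm_num
      | succ m ihm =>
        intro w hw k
        rw [Fin.prod_univ_succ, add_mul, coeff_add, coeff_C_mul]
        have h1 := ihm (fun i => w i.succ) (fun i => hw _) k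
        have h2 : 0 ≤ (X * ∏ i : Fin m, (X + C (w i.succ)) : ℝ[X]).coeff k := by
          rcases k with _ | k
          · simp
          · rw [coeff_X_mul]
            exact ihm (fun i => w i.succ) (fun i => hw _) k
        have h3 := mul_nonneg (hw 0) h1
        linarith
    exact this d _ (fun i => by linarith [huv i])
  have hc := Helper872.isCompact_rbox u v
  rw [← Helper872.thick_eq_cthickening hc hρ, Helper872.thick_rbox huv hρ]
  have hA := Helper872.AA_formula d u v huv (ρ ^ 2)
  unfold Helper872.AA at hA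
  rw [Measure.real, hA, ENNReal.toReal_sum]
  · rw [← Finset.sum_range_reflect]
    apply Finset.sum_congr rfl
    intro k hk
    rw [Finset.mem_range] at hk
    have e : d + 1 - 1 - k = d - k := by omega
    rw [e, ENNReal.toReal_mul, ENNReal.toReal_ofReal (hnn _), Helper872.bb_sq _ hρ,
      ENNReal.toReal_mul, ENNReal.toReal_ofReal (by positivity)]
    unfold kappa Measure.real
    ring
  · intro k _
    rw [Helper872.bb_sq _ hρ]
    exact ENNReal.mul_ne_top ENNReal.ofReal_ne_top
      (ENNReal.mul_ne_top ENNReal.ofReal_ne_top (isCompact_closedBall _ _).measure_lt_top.ne)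

/-- The surface area defined as the one-sided derivative of the volume of the outer parallel body
is twice the intrinsic volume of index `d - 1`. -/
theorem surface_eq {d : ℕ} (hd : 1 ≤ d) {K : Set (EuclideanSpace ℝ (Fin d))} (hK : IsCompact K)
    {F : ℝ} (hF : Tendsto (fun ρ : ℝ => (volume.real (cthickening ρ K) - volume.real K) / ρ)
      (𝓝[>] 0) (𝓝 F)) {V : ℕ → ℝ} (hV : IsIntrinsicVolumes K V) : F = 2 * V (d - 1) := by
  obtain ⟨e, rfl⟩ : ∃ e, d = e + 1 := ⟨d - 1, by omega⟩
  have h0 : volume.real K = V (e + 1) := by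
    have h := hV 0 le_rfl
    rw [cthickening_zero, hK.isClosed.closure_eq] at h
    rw [h, Finset.sum_range_succ, Finset.sum_eq_zero]
    · simp [kappa_zero]
    · intro i hi
      rw [Finset.mem_range] at hi
      have : e + 1 - i ≠ 0 := by omega
      simp [this]
  have h1 : Tendsto (fun ρ : ℝ => ∑ i ∈ Finset.range e, kappa (e + 1 - i) * ρ ^ (e - i) * V i
      + kappa 1 * V e) (𝓝[>] 0) (𝓝 (∑ i ∈ Finset.range e, kappa (e + 1 - i) * 0 ^ (e - i) * V i
      + kappa 1 * V e)) := by
    have : Continuous (fun ρ : ℝ => ∑ i ∈ Finset.range e, kappa (e + 1 - i) * ρ ^ (e - i) * V i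
      + kappa 1 * V e) := by fun_prop
    exact (this.tendsto 0).mono_left nhdsWithin_le_nhds
  have h2 : ∑ i ∈ Finset.range e, kappa (e + 1 - i) * 0 ^ (e - i) * V i + kappa 1 * V e
      = 2 * V e := by
    rw [Finset.sum_eq_zero, kappa_one, zero_add]
    intro i hi
    rw [Finset.mem_range] at hi
    have : e - i ≠ 0 := by omega
    simp [this]
  rw [h2] at h1
  have h3 : Tendsto (fun ρ : ℝ => (volume.real (cthickening ρ K) - volume.real K) / ρ)
      (𝓝[>] 0) (𝓝 (2 * V e)) := by
    refine h1.congr' ?_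
    filter_upwards [self_mem_nhdsWithin] with ρ hρ
    have hρ0 : (0 : ℝ) < ρ := hρ
    rw [hV ρ hρ0.le, h0, Finset.sum_range_succ, Finset.sum_range_succ]
    have e1 : e + 1 - (e + 1) = 0 := by omega
    have e2 : e + 1 - e = 1 := by omega
    rw [e1, e2, kappa_zero, pow_zero, pow_one, one_mul, one_mul, add_sub_cancel_right]
    rw [add_div, Finset.sum_div]
    congr 1
    · apply Finset.sum_congr rfl
      intro i hi
      rw [Finset.mem_range] at hi
      have : e + 1 - i = (e - i) + 1 := by omega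
      rw [this, pow_succ]
      field_simp
    · field_simp
  have := tendsto_nhds_unique hF h3
  simpa using this

/-- **Ehrhart's 1977 inequality in every dimension.** -/
theorem result (d : ℕ) (hd : 1 ≤ d) (K : Set (EuclideanSpace ℝ (Fin d))) (hne : K.Nonempty)
    (hcomp : IsCompact K) (hconv : Convex ℝ K) :
    ∃ (F : ℝ) (W : ℕ → ℝ),
      Tendsto (fun ρ : ℝ => (volume.real (cthickening ρ K) - volume.real K) / ρ)
        (𝓝[>] 0) (𝓝 F) ∧
      (∀ V : ℕ → ℝ, IsIntrinsicVolumes K V → F = 2 * V (d - 1)) ∧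
      IsIntrinsicVolumes (latticeBox K) W ∧
      (latticeCount K : ℝ) ≤ volume.real K + F / 2 + ∑ i ∈ Finset.range (d - 1), W i := by
  -- the box
  set a : Fin d → ℤ := fun i => ⌊sInf ((fun y : EuclideanSpace ℝ (Fin d) => y i) '' K)⌋ with ha
  set b : Fin d → ℤ := fun i => ⌈sSup ((fun y : EuclideanSpace ℝ (Fin d) => y i) '' K)⌉ with hb
  have himg : ∀ i, IsCompact ((fun y : EuclideanSpace ℝ (Fin d) => y i) '' K) := fun i =>
    hcomp.image (by fun_prop)
  have hKb : K ⊆ Helper872.box a b := by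
    intro x hx i
    have h1 : sInf ((fun y : EuclideanSpace ℝ (Fin d) => y i) '' K) ≤ x i :=
      csInf_le (himg i).bddBelow ⟨x, hx, rfl⟩
    have h2 : x i ≤ sSup ((fun y : EuclideanSpace ℝ (Fin d) => y i) '' K) :=
      le_csSup (himg i).bddAbove ⟨x, hx, rfl⟩
    exact ⟨(Int.floor_le _).trans h1, h2.trans (Int.le_ceil _)⟩
  have hab' : ∀ i, (a i : ℝ) ≤ b i := by
    intro i
    obtain ⟨x, hx⟩ := hne
    exact (hKb hx i).1.trans (hKb hx i).2
  have hab : ∀ i, a i ≤ b i := fun i => by exact_mod_cast hab' i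
  -- the surface area
  obtain ⟨F, hF⟩ := Helper872.slope_exists hcomp hne hconv
  have hF' : Tendsto (fun ρ : ℝ => (volume.real (cthickening ρ K) - volume.real K) / ρ)
      (𝓝[>] 0) (𝓝 F) := by
    refine hF.congr' ?_
    filter_upwards [self_mem_nhdsWithin] with ρ hρ
    rw [Helper872.thick_eq_cthickening hcomp (le_of_lt hρ)]
  refine ⟨F, _, hF', fun V hV => surface_eq hd hcomp hF' hV, box_intrinsic hab', ?_⟩
  have hsum : ∑ i ∈ Finset.range (d - 1),
      (∏ i, (Polynomial.X + Polynomial.C ((b i : ℝ) - a i)) : Polynomial ℝ).coeff (d - i) =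
      Helper872.LL (fun i => (b i : ℝ) - a i) := by
    obtain ⟨e, rfl⟩ : ∃ e, d = e + 1 := ⟨d - 1, by omega⟩
    exact low_sum e _
  rw [hsum]
  apply le_of_forall_pos_le_add
  intro ε hε
  have hgood := Helper872.good_all d K hcomp hconv a b hab hKb ε hε
  have hlim : Tendsto (fun ρ : ℝ => volume.real K +
      (volume.real (Helper872.thick ρ K) - volume.real K) / (2 * ρ)
      + Helper872.LL (fun i => (b i : ℝ) - a i) + ε) (𝓝[>] 0)
      (𝓝 (volume.real K + F / 2 + Helper872.LL (fun i => (b i : ℝ) - a i) + ε)) := by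
    have h1 : Tendsto (fun ρ : ℝ => (volume.real (Helper872.thick ρ K) - volume.real K) / (2 * ρ))
        (𝓝[>] 0) (𝓝 (F / 2)) := by
      refine (hF.div_const 2).congr' ?_
      filter_upwards with ρ
      rw [div_div, mul_comm]
    exact ((h1.const_add _).add_const _).add_const _
  exact ge_of_tendsto hlim hgood

end Pool.Agent.Results.MP_0139c6_co.EhrhartBoxBound
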